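import Pool.Agent.Helper70.SUB.SheetA

/-! Project SUB, row REL: a linear relation between S-units makes two of them proportional on an
infinite set. -/

set_option autoImplicit false

namespace Pool.Agent.Helper89.SUB

open Finset Matrix
open Pool.Agent.Helper70.SUB

/-- pigeonhole for infinite sets -/
theorem pig {β : Type} {M : Set ℕ} (hM : M.Infinite) (f : ℕ → β) (T : Set β) (hT : T.Finite)
    (hf : ∀ j ∈ M, f j ∈ T) : ∃ b ∈ T, {j | j ∈ M ∧ f j = b}.Infinite := by
  by_contra h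
  push Not at h
  apply hM
  have h1 : (⋃ b ∈ T, {j | j ∈ M ∧ f j = b}).Finite :=
    hT.biUnion fun b hb => h b hb
  refine h1.subset fun j hj => ?_
  simp only [Set.mem_iUnion]
  exact ⟨f j, hf j hj, hj, rfl⟩

/-- integer vectors of bounded norm -/
theorem fin_norm (n : ℕ) (H : ℝ) : {y : Fin n → ℤ | ‖y‖ ≤ H}.Finite := by
  refine (Set.finite_Icc (fun _ : Fin n => -⌈H⌉) (fun _ => ⌈H⌉)).subset fun y hy => ?_
  have hy' : ‖y‖ ≤ H := hy
  have h1 : ∀ k, |(y k : ℝ)| ≤ H := fun k => by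
    have := (norm_le_pi_norm y k).trans hy'
    rwa [Int.norm_eq_abs] at this
  have h2 : H ≤ (⌈H⌉ : ℝ) := Int.le_ceil H
  refine Set.mem_Icc.2 ⟨fun k => ?_, fun k => ?_⟩
  · have := (abs_le.1 (h1 k)).1
    have h3 : ((-⌈H⌉ : ℤ) : ℝ) ≤ (y k : ℝ) := by push_cast; linarith
    exact_mod_cast h3
  · have := (abs_le.1 (h1 k)).2
    have h3 : (y k : ℝ) ≤ ((⌈H⌉ : ℤ) : ℝ) := by linarith
    exact_mod_cast h3

/-- the forms: coordinates, with the coordinate `κ` replaced by the form `w` -/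
def frm {n : ℕ} (κ : Fin n) (w : Fin n → ℚ) : Matrix (Fin n) (Fin n) ℚ :=
  Matrix.of fun k l => if k = κ then w l else if k = l then 1 else 0

theorem frm_at {n : ℕ} (κ : Fin n) (w y : Fin n → ℚ) :
    (frm κ w).mulVec y κ = ∑ l, w l * y l := by
  simp [frm, Matrix.mulVec, dotProduct]

theorem frm_ne {n : ℕ} {κ k : Fin n} (h : k ≠ κ) (w y : Fin n → ℚ) :
    (frm κ w).mulVec y k = y k := by
  simp [frm, Matrix.mulVec, dotProduct, h]

theorem frm_det {n : ℕ} (κ : Fin n) (w : Fin n → ℚ) (hw : w κ ≠ 0) : (frm κ w).det ≠ 0 := by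
  intro h
  obtain ⟨y, hy0, hy⟩ := Matrix.exists_mulVec_eq_zero_iff.2 h
  apply hy0
  have h1 : ∀ k, k ≠ κ → y k = 0 := fun k hk => by
    rw [← frm_ne hk w y, hy]
    rfl
  have h2 : ∑ l, w l * y l = w κ * y κ := by
    refine Finset.sum_eq_single κ (fun k _ hk => ?_) (fun hk => absurd (Finset.mem_univ _) hk)
    rw [h1 k hk, mul_zero]
  have h3 : w κ * y κ = 0 := by
    rw [← h2, ← frm_at κ w y, hy]
    rfl
  funext k
  by_cases hk : k = κ
  · rw [hk]
    exact (mul_eq_zero.1 h3).resolve_left hw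
  · exact h1 k hk

/-- the product of the forms -/
theorem frm_prod {n : ℕ} (v : Option ℕ) (κ : Fin n) (w y : Fin n → ℚ) :
    (∏ i, av v ((frm κ w).mulVec y i)) * av v (y κ) =
      av v (∑ l, w l * y l) * ∏ i, av v (y i) := by
  rw [← Finset.mul_prod_erase univ (fun i => av v ((frm κ w).mulVec y i)) (Finset.mem_univ κ),
    ← Finset.mul_prod_erase univ (fun i => av v (y i)) (Finset.mem_univ κ), frm_at]
  have : ∏ i ∈ univ.erase κ, av v ((frm κ w).mulVec y i) = ∏ i ∈ univ.erase κ, av v (y i) :=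
    Finset.prod_congr rfl fun i hi => by rw [frm_ne (Finset.ne_of_mem_erase hi)]
  rw [this]
  ring

/-- REL -/
theorem st_REL (hAV : ST_AV) (hSUBT : ST_SUBT) : ST_REL := by
  obtain ⟨av0, -, hAV⟩ := hAV
  have key : ∀ N : ℕ, ∀ (ι : Type) [Fintype ι] [DecidableEq ι], Fintype.card ι = N →
      ∀ (S : Finset ℕ) (a : ι → ℚ) (M : Set ℕ) (u : ℕ → ι → ℤ), (∀ p ∈ S, p.Prime) →
      Nonempty ι → (∀ i, a i ≠ 0) → M.Infinite → (∀ j ∈ M, ∀ i, SU S (u j i)) →
      (∀ j ∈ M, ∑ i, a i * (u j i : ℚ) = 0) →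
      ∃ (i i' : ι) (M' : Set ℕ) (ρ : ℚ), i ≠ i' ∧ M' ⊆ M ∧ M'.Infinite ∧
        ∀ j ∈ M', (u j i : ℚ) = ρ * u j i' := by
    intro N
    induction N using Nat.strong_induction_on with
    | _ N ih =>
    intro ι _ _ hN S a M u hSp hne ha hM hu hsum
    obtain ⟨-, avm, -, -, avi, -, -, avS, -⟩ := hAV S hSp
    obtain ⟨n, rfl⟩ : ∃ n, N = n + 1 :=
      Nat.exists_eq_succ_of_ne_zero (by rw [← hN]; exact Fintype.card_ne_zero)
    obtain ⟨e⟩ : Nonempty (Fin (n + 1) ≃ ι) := ⟨(Fintype.equivFinOfCardEq hN).symm⟩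
    have hs : ∀ j ∈ M, a (e 0) * (u j (e 0) : ℚ) +
        ∑ k : Fin n, a (e k.succ) * (u j (e k.succ) : ℚ) = 0 := by
      intro j hj
      have h1 := hsum j hj
      rw [← Equiv.sum_comp e, Fin.sum_univ_succ] at h1
      exact h1
    have hu0 : ∀ j ∈ M, ∀ i, (u j i : ℚ) ≠ 0 := fun j hj i => by
      exact_mod_cast (hu j hj i).1
    rcases Nat.lt_or_ge n 2 with hn | hn
    · interval_cases n
      · -- one term
        obtain ⟨j, hj⟩ := hM.nonempty
        have h1 := hs j hj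
        rw [Fin.sum_univ_zero, add_zero] at h1
        exact absurd h1 (mul_ne_zero (ha _) (hu0 j hj _))
      · -- two terms
        refine ⟨e 0, e (Fin.succ 0), M, -(a (e (Fin.succ 0)) / a (e 0)), ?_, subset_rfl, hM,
          fun j hj => ?_⟩
        · intro h
          exact absurd (e.injective h) (Fin.succ_ne_zero 0).symm
        · have h1 := hs j hj
          rw [Fin.sum_univ_one] at h1
          have h2 := ha (e 0)
          field_simp
          linarith
    -- at least three terms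
    have hn0 : 0 < n := by omega
    have hx : ∀ j, ∃ x : Fin n → ℤ, (∀ k, u j (e k.succ) =
        (univ.gcd fun k : Fin n => u j (e k.succ)) * x k) ∧ univ.gcd x = 1 := by
      intro j
      obtain ⟨x, h1, h2⟩ := Finset.extract_gcd (s := (univ : Finset (Fin n)))
        (fun k => u j (e k.succ)) ⟨⟨0, hn0⟩, Finset.mem_univ _⟩
      exact ⟨x, fun k => h1 k (Finset.mem_univ _), h2⟩
    choose x hx1 hx2 using hx
    obtain ⟨g, hg⟩ : ∃ g : ℕ → ℤ, ∀ j, g j = univ.gcd fun k : Fin n => u j (e k.succ) :=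
      ⟨_, fun _ => rfl⟩
    have hux : ∀ j k, u j (e k.succ) = g j * x j k := fun j k => by rw [hg]; exact hx1 j k
    have huxQ : ∀ j k, (u j (e k.succ) : ℚ) = g j * x j k := fun j k => by
      rw [hux]; push_cast; rfl
    have hg0 : ∀ j ∈ M, g j ≠ 0 := fun j hj h => by
      have h1 := hux j ⟨0, hn0⟩
      rw [h, zero_mul] at h1
      exact (hu j hj _).1 h1
    have hgS : ∀ j ∈ M, ∀ q : ℕ, q.Prime → (q : ℤ) ∣ g j → q ∈ S := fun j hj q hq h =>
      (hu j hj (e (Fin.succ ⟨0, hn0⟩))).2 q hq (by rw [hux]; exact h.mul_right _)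
    have hx0 : ∀ j ∈ M, ∀ k, x j k ≠ 0 := fun j hj k h => by
      have h1 := hux j k
      rw [h, mul_zero] at h1
      exact (hu j hj _).1 h1
    have hxS : ∀ j ∈ M, ∀ k, ∀ q : ℕ, q.Prime → (q : ℤ) ∣ x j k → q ∈ S :=
      fun j hj k q hq h => (hu j hj (e k.succ)).2 q hq (by rw [hux]; exact h.mul_left _)
    by_cases hb : ∃ H : ℝ, {j | j ∈ M ∧ ‖x j‖ ≤ H}.Infinite
    · -- bounded vectors
      obtain ⟨H, hH⟩ := hb
      obtain ⟨y, -, hy⟩ := pig hH x {y | ‖y‖ ≤ H} (fin_norm n H) fun j hj => hj.2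
      obtain ⟨k0, hk0⟩ : ∃ k : Fin n, k = ⟨0, by omega⟩ := ⟨_, rfl⟩
      obtain ⟨k1, hk1⟩ : ∃ k : Fin n, k = ⟨1, by omega⟩ := ⟨_, rfl⟩
      refine ⟨e k0.succ, e k1.succ, {j | j ∈ {j | j ∈ M ∧ ‖x j‖ ≤ H} ∧ x j = y},
        (y k0 : ℚ) / y k1, ?_, fun j hj => hj.1.1, hy, fun j hj => ?_⟩
      · intro h
        have h1 := Fin.succ_injective _ (e.injective h)
        rw [hk0, hk1, Fin.mk.injEq] at h1
        omega
      · have hj1 := hj.1.1
        have h1 : (y k1 : ℚ) ≠ 0 := by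
          rw [← hj.2]
          exact_mod_cast hx0 j hj1 k1
        rw [huxQ, huxQ, hj.2]
        field_simp
    -- unbounded vectors
    push Not at hb
    have hfin : ∀ H : ℝ, {j | j ∈ M ∧ ‖x j‖ ≤ H}.Finite := fun H => hb H
    -- the maximal coordinates
    have hκ : ∀ j v, ∃ κ : Fin n, ∀ k, av v (x j k) ≤ av v (x j κ) := by
      intro j v
      obtain ⟨κ, -, h⟩ := Finset.exists_max_image (univ : Finset (Fin n))
        (fun k => av v (x j k)) ⟨⟨0, hn0⟩, Finset.mem_univ _⟩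
      exact ⟨κ, fun k => h k (Finset.mem_univ _)⟩
    choose κ hκ using hκ
    obtain ⟨K, -, hK⟩ := pig hM (fun j => fun v : {v // v ∈ plc S} => κ j v.1) Set.univ
      Set.finite_univ fun _ _ => Set.mem_univ _
    obtain ⟨K', hK'⟩ : ∃ K' : Option ℕ → Fin n, ∀ v (hv : v ∈ plc S), K' v = K ⟨v, hv⟩ :=
      ⟨fun v => if hv : v ∈ plc S then K ⟨v, hv⟩ else ⟨0, hn0⟩, fun v hv => by
        simp only [hv, dif_pos]⟩
    obtain ⟨w, hw⟩ : ∃ w : Fin n → ℚ, w = fun k => a (e k.succ) := ⟨_, rfl⟩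
    obtain ⟨c0, hc0⟩ : ∃ c0 : ℝ, c0 = ∏ v ∈ plc S, av v (-a (e 0)) := ⟨_, rfl⟩
    have hc00 : 0 ≤ c0 := by
      rw [hc0]
      exact Finset.prod_nonneg fun v _ => av0 _ _
    obtain ⟨M2, hM2⟩ : ∃ M2 : Set ℕ, M2 =
        {j | j ∈ M ∧ (fun v : {v // v ∈ plc S} => κ j v.1) = K} \
          {j | j ∈ M ∧ ‖x j‖ ≤ c0 ^ 2 + 1} := ⟨_, rfl⟩
    have hM2i : M2.Infinite := by
      rw [hM2]
      exact hK.sdiff (hfin _)
    have hM2M : ∀ j ∈ M2, j ∈ M := fun j hj => by
      rw [hM2] at hj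
      exact hj.1.1
    have hM2K : ∀ j ∈ M2, ∀ v ∈ plc S, κ j v = K' v := fun j hj v hv => by
      rw [hM2] at hj
      rw [hK' v hv, ← hj.1.2]
    have hM2n : ∀ j ∈ M2, c0 ^ 2 + 1 < ‖x j‖ := fun j hj => by
      by_contra h
      have hj' := hj
      rw [hM2] at hj'
      exact hj'.2 ⟨hM2M j hj, not_lt.1 h⟩
    have hprod : ∀ j ∈ M2, ∏ v ∈ plc S, ∏ i, av v ((frm (K' v) w).mulVec (cv (x j)) i) ≤
        ‖x j‖ ^ (-(1 / 2 : ℝ)) := by
      intro j hj
      have hjM := hM2M j hj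
      obtain ⟨P, hP⟩ : ∃ P : ℝ, P = ∏ v ∈ plc S, ∏ i,
        av v ((frm (K' v) w).mulVec (cv (x j)) i) := ⟨_, rfl⟩
      have hP0 : 0 ≤ P := by
        rw [hP]
        exact Finset.prod_nonneg fun v _ => Finset.prod_nonneg fun i _ => av0 _ _
      obtain ⟨L, hL⟩ : ∃ L : ℚ, L = ∑ l, w l * cv (x j) l := ⟨_, rfl⟩
      have hgL : (g j : ℚ) * L = -a (e 0) * u j (e 0) := by
        have h1 := hs j hjM
        have h2 : (g j : ℚ) * L = ∑ k : Fin n, a (e k.succ) * (u j (e k.succ) : ℚ) := by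
          rw [hL, Finset.mul_sum]
          refine Finset.sum_congr rfl fun k _ => ?_
          rw [huxQ, hw, cv]
          ring
        rw [h2]
        linarith
      have e1 : ∏ v ∈ plc S, av v L = c0 := by
        have h1 : ∏ v ∈ plc S, (av v (g j) * av v L) =
            ∏ v ∈ plc S, (av v (-a (e 0)) * av v (u j (e 0))) :=
          Finset.prod_congr rfl fun v hv => by rw [← avm v hv, ← avm v hv, hgL]
        rw [Finset.prod_mul_distrib, Finset.prod_mul_distrib,
          avS (g j) (hg0 j hjM) (hgS j hjM), avS (u j (e 0)) (hu j hjM _).1 (hu j hjM _).2,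
          one_mul, mul_one, ← hc0] at h1
        exact h1
      have e2 : P * ∏ v ∈ plc S, av v (x j (K' v)) = c0 := by
        rw [hP, ← Finset.prod_mul_distrib]
        have h1 : ∏ v ∈ plc S, ((∏ i, av v ((frm (K' v) w).mulVec (cv (x j)) i)) *
            av v (x j (K' v))) = ∏ v ∈ plc S, (av v L * ∏ i, av v (x j i)) := by
          refine Finset.prod_congr rfl fun v _ => ?_
          rw [hL]
          exact frm_prod v (K' v) w (cv (x j))
        rw [h1, Finset.prod_mul_distrib, e1, Finset.prod_comm]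
        have h2 : ∏ i, ∏ v ∈ plc S, av v (x j i) = 1 :=
          Finset.prod_eq_one fun i _ => avS _ (hx0 j hjM i) (hxS j hjM i)
        rw [h2, mul_one]
      have hn1 : ‖x j‖ ≤ av none (x j (K' none)) := by
        refine (pi_norm_le_iff_of_nonneg (av0 _ _)).2 fun k => ?_
        have h1 := hκ j none k
        rw [hM2K j hj none (by simp [plc])] at h1
        refine le_trans (le_of_eq ?_) h1
        rw [Int.norm_eq_abs]
        simp [av]
      have hn2 : ∀ p ∈ S, 1 ≤ av (some p) (x j (K' (some p))) := by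
        intro p hp
        have hpp := hSp p hp
        have : Fact p.Prime := ⟨hpp⟩
        obtain ⟨k, hk⟩ : ∃ k, ¬ (p : ℤ) ∣ x j k := by
          by_contra h
          push Not at h
          have h1 : (p : ℤ) ∣ univ.gcd (x j) := Finset.dvd_gcd fun k _ => h k
          rw [hx2] at h1
          have h2 : (p : ℤ) ≤ 1 := Int.le_of_dvd one_pos h1
          have := hpp.two_le
          omega
        have h1 := hκ j (some p) k
        rw [hM2K j hj (some p) (by simpa [plc] using hp)] at h1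
        refine le_trans (le_of_eq ?_) h1
        have h2 : padicNorm p ((x j k : ℤ) : ℚ) = 1 := (padicNorm.int_eq_one_iff _).2 hk
        show (1 : ℝ) = ((padicNorm p ((x j k : ℤ) : ℚ) : ℚ) : ℝ)
        rw [h2]
        simp
      have hn3 : ‖x j‖ ≤ ∏ v ∈ plc S, av v (x j (K' v)) := by
        rw [plc, Finset.prod_insertNone]
        have h1 : (1 : ℝ) ≤ ∏ p ∈ S, av (some p) (x j (K' (some p))) := by
          rw [← Finset.prod_const_one (s := S)]
          exact Finset.prod_le_prod (fun _ _ => zero_le_one) hn2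
        calc ‖x j‖ ≤ av none (x j (K' none)) := hn1
          _ = av none (x j (K' none)) * 1 := (mul_one _).symm
          _ ≤ _ := mul_le_mul_of_nonneg_left h1 (av0 _ _)
      have hnn := hM2n j hj
      have hn4 : 0 < ‖x j‖ := lt_trans (by positivity) hnn
      have hn5 : P * ‖x j‖ ≤ c0 := by
        rw [← e2]
        exact mul_le_mul_of_nonneg_left hn3 hP0
      have hn6 : c0 ≤ ‖x j‖ ^ (1 / 2 : ℝ) := by
        rw [← Real.sqrt_eq_rpow]
        refine Real.le_sqrt_of_sq_le ?_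
        linarith
      rw [← hP]
      have hn7 : ‖x j‖ ^ (-(1 / 2 : ℝ)) * ‖x j‖ = ‖x j‖ ^ (1 / 2 : ℝ) := by
        nth_rewrite 2 [← Real.rpow_one ‖x j‖]
        rw [← Real.rpow_add hn4]
        norm_num
      refine le_of_mul_le_mul_right ?_ hn4
      rw [hn7]
      exact hn5.trans hn6
    obtain ⟨b, hb0, hbi⟩ := hSUBT n S (fun v => frm (K' v) w) (1 / 2) M2 x (by omega) hSp
      (fun v _ => frm_det _ _ (by rw [hw]; exact ha _)) (by norm_num) hM2i
      (fun H => (hfin H).subset fun j hj => ⟨hM2M j hj.1, hj.2⟩) hprod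
    obtain ⟨i, i', M', ρ, h1, h2, h3, h4⟩ := ih (Fintype.card {k : Fin n // b k ≠ 0})
      (lt_of_le_of_lt ((Fintype.card_subtype_le _).trans (by simp)) (Nat.lt_succ_self n))
      {k : Fin n // b k ≠ 0} rfl S (fun k => b k.1)
      {j | j ∈ M2 ∧ ∑ i, b i * (x j i : ℚ) = 0} (fun j k => u j (e k.1.succ)) hSp
      (by
        by_contra h
        apply hb0
        funext k
        by_contra hk
        exact h ⟨⟨k, hk⟩⟩) (fun k => k.2) hbi (fun j hj k => hu j (hM2M j hj.1) _)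
      (by
        intro j hj
        have h1 : ∑ k : {k : Fin n // b k ≠ 0}, b k.1 * (u j (e k.1.succ) : ℚ) =
            ∑ k : Fin n, b k * (u j (e k.succ) : ℚ) := by
          rw [← Finset.sum_filter_of_ne (s := univ) (p := fun k => b k ≠ 0)
            (f := fun k : Fin n => b k * (u j (e k.succ) : ℚ)) (fun k _ hk h => hk (by
              show b k * (u j (e k.succ) : ℚ) = 0
              rw [h, zero_mul]))]
          exact (Finset.sum_subtype (univ.filter fun k => b k ≠ 0) (fun k => by simp)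
            (fun k : Fin n => b k * (u j (e k.succ) : ℚ))).symm
        rw [h1]
        have h2 : ∑ k : Fin n, b k * (u j (e k.succ) : ℚ) =
            (g j : ℚ) * ∑ k : Fin n, b k * (x j k : ℚ) := by
          rw [Finset.mul_sum]
          refine Finset.sum_congr rfl fun k _ => ?_
          rw [huxQ]
          ring
        rw [h2, hj.2, mul_zero])
    refine ⟨e i.1.succ, e i'.1.succ, M', ρ, fun h => h1 ?_, fun j hj => hM2M j (h2 hj).1, h3,
      h4⟩
    exact Subtype.ext (Fin.succ_injective _ (e.injective h))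
  intro ι _ _ S a M u hSp hne ha hM hu hsum
  exact key _ ι rfl S a M u hSp hne ha hM hu hsum

end Pool.Agent.Helper89.SUB
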